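import Pool.Agent.R368.Deg.Defs
import Pool.Agent.R903.MurreD
import Pool.Agent.R903.AlgCK
import Pool.Agent.R903.BB

/-!
# Degree operators and Murre's conjectures (A) and (D)
-/

open CategoryTheory CategoryTheory.Limits AlgebraicGeometry Polynomial
open Pool.Agent.H914 Pool.Agent.H914.VarClass Pool.Agent.H914.VarClass.Obj
open Pool.Agent.R903 Pool.Agent.R903.WeilTheory

universe u v w

namespace Pool.Agent.R368

section Lin

variable {V : Type v} [AddCommGroup V] [Module ℚ V]

lemma falling_zero (T : V → V) (x : V) : falling T 0 x = x := rfl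

lemma falling_succ (T : V → V) (m : ℕ) (x : V) :
    falling T (m + 1) x = falling T m (T x - (m : ℚ) • x) := rfl

lemma falling_smul (T : V →ₗ[ℚ] V) (m : ℕ) (q : ℚ) (x : V) :
    falling T m (q • x) = q • falling T m x := by
  induction m generalizing x with
  | zero => rfl
  | succ m ih => rw [falling_succ, falling_succ, ← ih, map_smul, smul_sub, smul_comm q]

lemma falling_eigen {T : V →ₗ[ℚ] V} {a : ℚ} {x : V} (h : T x = a • x) (m : ℕ) :
    falling T m x = (∏ j ∈ Finset.range m, (a - j)) • x := by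
  induction m with
  | zero => rw [falling_zero, Finset.prod_range_zero, one_smul]
  | succ m ih =>
    rw [falling_succ, h, ← sub_smul, falling_smul, ih, smul_smul, Finset.prod_range_succ, mul_comm]

end Lin

variable {k : Type u} [Field k] {𝒱 : VarClass k} {C : ChowTheory.{u, v} 𝒱}
  {W : WeilTheory.{u, v, w} C} {X : 𝒱.Obj}

lemma adOp_apply (m : ℚ) (d γ : C.CH (X.prod X)) :
    adOp C m d γ = m • γ + (C.comp γ d - C.comp d γ) := rfl

/-- `adOp` as a linear map -/
noncomputable def adLin (C : ChowTheory.{u, v} 𝒱) {X : 𝒱.Obj} (m : ℚ) (d : C.CH (X.prod X)) :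
    C.CH (X.prod X) →ₗ[ℚ] C.CH (X.prod X) where
  toFun := adOp C m d
  map_add' γ γ' := by
    rw [adOp, adOp, adOp, C.add_comp, C.comp_add, smul_add]
    abel
  map_smul' q γ := by
    rw [adOp, adOp, C.smul_comp, C.comp_smul, RingHom.id_apply, smul_add, smul_sub, smul_comm]

lemma neg_comp (α β : C.CH (X.prod X)) : C.comp (-α) β = -C.comp α β := by
  have := C.smul_comp (-1) α β
  simpa using this

lemma comp_neg (α β : C.CH (X.prod X)) : C.comp α (-β) = -C.comp α β := by
  have := C.comp_smul (-1) α β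
  simpa using this

lemma sub_comp (α α' β : C.CH (X.prod X)) : C.comp (α - α') β = C.comp α β - C.comp α' β := by
  rw [sub_eq_add_neg, C.add_comp, neg_comp, ← sub_eq_add_neg]

lemma comp_sub (α β β' : C.CH (X.prod X)) : C.comp α (β - β') = C.comp α β - C.comp α β' := by
  rw [sub_eq_add_neg, C.comp_add, comp_neg, ← sub_eq_add_neg]

lemma HomTriv.comp_right {γ δ : C.CH (X.prod X)} (h : HomTriv W X γ)
    (hδ : δ ∈ C.gr (X.prod X) X.dim) : HomTriv W X (C.comp γ δ) := by
  refine ⟨C.comp_mem h.1 hδ rfl, fun a => ?_⟩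
  rw [W.act_comp _ hδ, h.2, map_zero]

lemma HomTriv.comp_left {γ δ : C.CH (X.prod X)} (h : HomTriv W X γ)
    (hδ : δ ∈ C.gr (X.prod X) X.dim) : HomTriv W X (C.comp δ γ) := by
  refine ⟨C.comp_mem hδ h.1 rfl, fun a => ?_⟩
  rw [W.act_comp _ h.1, h.2]

/-! ### The decomposition given by a semisimple degree operator -/

section Semisimple

variable {d : C.CH (X.prod X)} (hd : W.IsDegree X d)
  (h0 : aeval (CorrRing.of C X d) (pol (Finset.range (2 * X.dim + 1))) = 0)

/-- The Lagrange projectors of `d`. -/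
noncomputable def lagCK (d : C.CH (X.prod X)) (j : ℕ) : C.CH (X.prod X) :=
  if j < 2 * X.dim + 1 then
    (CorrRing.of C X).symm (aeval (CorrRing.of C X d) (R903.lag (Finset.range (2 * X.dim + 1)) j))
  else 0

include h0 in
lemma lag_left {j : ℕ} (hj : j < 2 * X.dim + 1) (p : ℚ[X]) :
    aeval (CorrRing.of C X d) p * aeval (CorrRing.of C X d) (R903.lag (Finset.range (2 * X.dim + 1)) j) =
      p.eval (j : ℚ) • aeval (CorrRing.of C X d) (R903.lag (Finset.range (2 * X.dim + 1)) j) := by
  set δ := CorrRing.of C X d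
  set S := Finset.range (2 * X.dim + 1)
  have h1 : (Algebra.lmul ℚ (CorrRing C X) δ) (aeval δ (R903.lag S j)) =
      (j : ℚ) • aeval δ (R903.lag S j) := by
    obtain ⟨c, hc⟩ := lag_mul (S := S) (j := j) (Finset.mem_range.2 hj)
    have h2 := congrArg (fun p => aeval δ p) hc
    simp only [map_mul, map_sub, aeval_X, aeval_C, h0, mul_zero] at h2
    rw [sub_mul, sub_eq_zero] at h2
    show δ * aeval δ (R903.lag S j) = _
    rw [h2, Algebra.smul_def]
  have h3 := aeval_eigen h1 p
  rw [aeval_algHom_apply] at h3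
  exact h3

include hd h0 in
theorem lagCK_isCK : W.IsCK X (lagCK d) := by
  classical
  set δ := CorrRing.of C X d with hδ
  set S := Finset.range (2 * X.dim + 1) with hS
  have hS' : ∀ {j}, j < 2 * X.dim + 1 → j ∈ S := fun h => Finset.mem_range.2 h
  have heval : ∀ i j, i < 2 * X.dim + 1 → j < 2 * X.dim + 1 →
      (R903.lag S i).eval (j : ℚ) = if i = j then 1 else 0 := by
    intro i j hi hj
    unfold R903.lag
    split_ifs with hij
    · subst hij
      exact Lagrange.eval_basis_self (s := S) (v := fun j : ℕ => (j : ℚ))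
        (fun a _ b _ hab => by have h : (a : ℚ) = b := hab; exact_mod_cast h) (hS' hi)
    · exact Lagrange.eval_basis_of_ne (s := S) (v := fun j : ℕ => (j : ℚ)) hij (hS' hj)
  have hmul : ∀ i j, i < 2 * X.dim + 1 → j < 2 * X.dim + 1 →
      aeval δ (R903.lag S i) * aeval δ (R903.lag S j) = if i = j then aeval δ (R903.lag S j) else 0 := by
    intro i j hi hj
    rw [lag_left h0 hj, heval i j hi hj]
    split_ifs
    · rw [one_smul]
    · rw [zero_smul]
  refine ⟨fun j => ?_, fun j => ?_, fun i j hij => ?_, ?_, fun j l a ha => ?_⟩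
  · unfold lagCK
    split_ifs
    · exact C.aeval_mem_gr hd.1 _
    · exact Submodule.zero_mem _
  · unfold lagCK
    split_ifs with hj
    · have := hmul j j hj hj
      rw [if_pos rfl] at this
      exact this
    · exact C.comp_zero _
  · unfold lagCK
    by_cases hi : i < 2 * X.dim + 1
    · by_cases hj : j < 2 * X.dim + 1
      · rw [if_pos hi, if_pos hj]
        have := hmul j i hj hi
        rw [if_neg (Ne.symm hij)] at this
        exact this
      · rw [if_neg hj, C.comp_zero]
    · rw [if_neg hi, C.zero_comp]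
  · have h1 : ∑ j ∈ S, lagCK d j = (CorrRing.of C X).symm (∑ j ∈ S, aeval δ (R903.lag S j)) := by
      rw [map_sum]
      refine Finset.sum_congr rfl fun j hj => ?_
      unfold lagCK
      rw [if_pos (Finset.mem_range.1 hj)]
    rw [h1, ← map_sum]
    have h2 := Lagrange.sum_basis (s := S) (v := fun j : ℕ => (j : ℚ))
      (fun a _ b _ hab => by have h : (a : ℚ) = b := hab; exact_mod_cast h)
      ⟨0, hS' (by omega)⟩
    have h3 : ∑ j ∈ S, R903.lag S j = 1 := h2
    rw [h3, map_one]
    rfl
  · by_cases hl : 2 * X.dim < l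
    · rw [W.gr_eq_bot X l hl, Submodule.mem_bot] at ha
      rw [ha]; simp
    unfold lagCK
    by_cases hj : j < 2 * X.dim + 1
    · rw [if_pos hj]
      have h1 : W.act d a = (((l : ℚ) : ℚ) : W.K) • a := by rw [hd.2 l a ha]; push_cast; rfl
      rw [act_aeval hd.1 h1, heval j l hj (by omega)]
      by_cases hlj : l = j
      · rw [if_pos hlj, if_pos hlj.symm]; simp
      · rw [if_neg hlj, if_neg (Ne.symm hlj)]; simp
    · rw [if_neg hj, if_neg (by omega), W.act_zero, LinearMap.zero_apply]

include h0 in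
lemma lagCK_comp (j : ℕ) : C.comp (lagCK d j) d = (j : ℚ) • lagCK d j := by
  unfold lagCK
  split_ifs with hj
  · have := lag_left h0 hj Polynomial.X
    rw [aeval_X, eval_X] at this
    exact this
  · rw [C.zero_comp, smul_zero]

include h0 in
lemma comp_lagCK (j : ℕ) : C.comp d (lagCK d j) = (j : ℚ) • lagCK d j := by
  unfold lagCK
  split_ifs with hj
  · have := lag_left h0 hj Polynomial.X
    rw [aeval_X, eval_X] at this
    have h2 : aeval (CorrRing.of C X d) (R903.lag (Finset.range (2 * X.dim + 1)) j) *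
        CorrRing.of C X d = (j : ℚ) • aeval (CorrRing.of C X d)
          (R903.lag (Finset.range (2 * X.dim + 1)) j) := by
      rw [← this]
      conv_lhs => rw [← aeval_X (R := ℚ) (CorrRing.of C X d)]
      conv_rhs => rw [← aeval_X (R := ℚ) (CorrRing.of C X d)]
      rw [aeval_X, ← Polynomial.aeval_X (R := ℚ) (CorrRing.of C X d)]
      simp only [aeval_X]
      have h3 : ∀ p : ℚ[X], aeval (CorrRing.of C X d) p * CorrRing.of C X d =
          CorrRing.of C X d * aeval (CorrRing.of C X d) p := by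
        intro p
        have h4 := congrArg (aeval (CorrRing.of C X d)) (mul_comm p Polynomial.X)
        rwa [map_mul, map_mul, aeval_X] at h4
      exact h3 _
    exact h2
  · rw [C.comp_zero, smul_zero]

end Semisimple

/-! ### The defect of a degree operator -/

lemma homTriv_pol {d : C.CH (X.prod X)} (hd : W.IsDegree X d) :
    HomTriv W X ((CorrRing.of C X).symm
      (aeval (CorrRing.of C X d) (pol (Finset.range (2 * X.dim + 1))))) := by
  refine ⟨C.aeval_mem_gr hd.1 _, fun c => ?_⟩
  refine gr_induction (W.isInternal X) (p := fun c => W.act ((CorrRing.of C X).symm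
      (aeval (CorrRing.of C X d) (pol (Finset.range (2 * X.dim + 1))))) c = 0) ?_ ?_ c
  · intro l a ha
    by_cases hl : 2 * X.dim < l
    · rw [W.gr_eq_bot X l hl, Submodule.mem_bot] at ha
      rw [ha, map_zero]
    have h1 : W.act d a = (((l : ℚ) : ℚ) : W.K) • a := by rw [hd.2 l a ha]; push_cast; rfl
    rw [act_aeval hd.1 h1, pol_eval_mem (Finset.mem_range.2 (by omega)), Rat.cast_zero, zero_smul]
  · intro a b ha hb
    rw [map_add, ha, hb, add_zero]

lemma comp_comm_pol (d : C.CH (X.prod X)) (p : ℚ[X]) :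
    C.comp ((CorrRing.of C X).symm (aeval (CorrRing.of C X d) p)) d =
      C.comp d ((CorrRing.of C X).symm (aeval (CorrRing.of C X d) p)) := by
  have h4 := congrArg (aeval (CorrRing.of C X d)) (mul_comm Polynomial.X p)
  rw [map_mul, map_mul, aeval_X] at h4
  exact h4

lemma prod_ne (n : ℕ) {a : ℚ} (ha : (2 * n : ℚ) ≤ a) :
    (∏ j ∈ Finset.range (2 * n), (a - j)) ≠ 0 := by
  rw [Finset.prod_ne_zero_iff]
  intro j hj
  have h1 : (j : ℚ) + 1 ≤ 2 * n := by exact_mod_cast Finset.mem_range.1 hj
  intro h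
  linarith

lemma eq_zero_of_eigen {d γ : C.CH (X.prod X)} (hL : Lowers W X d) (hγ : HomTriv W X γ) {q : ℚ}
    (hq : 0 ≤ q) (h : C.comp γ d - C.comp d γ = q • γ) : γ = 0 := by
  have h1 : adLin C (2 * X.dim : ℚ) d γ = ((2 * X.dim : ℚ) + q) • γ := by
    show adOp C (2 * X.dim : ℚ) d γ = _
    rw [adOp_apply, h, add_smul]
  have h2 : falling (adLin C (2 * X.dim : ℚ) d) (2 * X.dim) γ = 0 := hL γ hγ
  rw [falling_eigen h1] at h2
  exact (smul_eq_zero.1 h2).resolve_left (prod_ne X.dim (by linarith))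

theorem defect_eq_zero {d : C.CH (X.prod X)} (hd : W.IsDegree X d) (hL : Lowers W X d) :
    aeval (CorrRing.of C X d) (pol (Finset.range (2 * X.dim + 1))) = 0 := by
  have h1 := eq_zero_of_eigen hL (homTriv_pol hd) (q := 0) le_rfl (by
    rw [comp_comm_pol, sub_self, zero_smul])
  exact (LinearEquiv.map_eq_zero_iff _).1 h1

/-- The identity gives a Chow–Künneth decomposition, for which homologically trivial
correspondences strictly lower the index. -/
theorem Lowers.exists {d : C.CH (X.prod X)} (hd : W.IsDegree X d) (hL : Lowers W X d) :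
    W.IsCK X (lagCK d) ∧ W.LowersIndex (lagCK (X := X) d) (lagCK d) := by
  have h0 := defect_eq_zero hd hL
  have hCK := lagCK_isCK hd h0
  refine ⟨hCK, fun γ hγ hγ0 a b hab => ?_⟩
  refine eq_zero_of_eigen hL ((HomTriv.comp_left ⟨hγ, hγ0⟩ (hCK.mem a)).comp_right (hCK.mem b))
    (q := (b : ℚ) - a) (by rw [sub_nonneg]; exact_mod_cast hab) ?_
  have e1 : C.comp (C.comp (C.comp (lagCK d a) γ) (lagCK d b)) d =
      (b : ℚ) • C.comp (C.comp (lagCK d a) γ) (lagCK d b) := by
    rw [C.comp_assoc, lagCK_comp h0, C.comp_smul]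
  have e2 : C.comp d (C.comp (C.comp (lagCK d a) γ) (lagCK d b)) =
      (a : ℚ) • C.comp (C.comp (lagCK d a) γ) (lagCK d b) := by
    rw [← C.comp_assoc, ← C.comp_assoc, comp_lagCK h0, C.smul_comp, C.smul_comp]
  rw [e1, e2, sub_smul]

/-! ### From decompositions to identities -/

section Converse

variable {π : ℕ → C.CH (X.prod X)} (h : W.IsCK X π) (hL : W.LowersIndex π π)

include h in
lemma degCK_isDegree : W.IsDegree X (degCK π) := by
  refine ⟨Submodule.sum_mem _ (fun l _ => Submodule.smul_mem _ _ (h.mem l)), fun j a ha => ?_⟩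
  unfold degCK
  rw [W.act_sum, LinearMap.sum_apply]
  by_cases hj : 2 * X.dim < j
  · rw [W.gr_eq_bot X j hj] at ha
    rw [(Submodule.mem_bot _).1 ha]
    simp
  · have : ∀ l ∈ Finset.range (2 * X.dim + 1), W.act ((l : ℚ) • π l) a =
        if j = l then (l : W.K) • a else 0 := by
      intro l _
      rw [W.act_smul, LinearMap.smul_apply, h.proj l j a ha, Rat.cast_natCast]
      split_ifs <;> simp
    rw [Finset.sum_congr rfl this, Finset.sum_ite_eq, if_pos (Finset.mem_range.2 (by omega))]

include h in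
lemma comp_degCK (b : ℕ) : C.comp (π b) (degCK π) = (b : ℚ) • π b := by
  unfold degCK
  rw [C.comp_sum]
  by_cases hb : 2 * X.dim < b
  · rw [h.eq_zero hb, smul_zero]
    exact Finset.sum_eq_zero fun j _ => C.zero_comp _
  · rw [Finset.sum_eq_single b]
    · rw [C.comp_smul, h.idem]
    · intro j _ hj
      rw [C.comp_smul, h.orth b j (Ne.symm hj), smul_zero]
    · intro h1; exact absurd (Finset.mem_range.2 (by omega)) h1

include h in
lemma degCK_comp (b : ℕ) : C.comp (degCK π) (π b) = (b : ℚ) • π b := by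
  unfold degCK
  rw [C.sum_comp]
  by_cases hb : 2 * X.dim < b
  · rw [h.eq_zero hb, smul_zero]
    exact Finset.sum_eq_zero fun j _ => C.comp_zero _
  · rw [Finset.sum_eq_single b]
    · rw [C.smul_comp, h.idem]
    · intro j _ hj
      rw [C.smul_comp, h.orth j b hj, smul_zero]
    · intro h1; exact absurd (Finset.mem_range.2 (by omega)) h1

include h in
lemma homTriv_sub {d : C.CH (X.prod X)} (hd : W.IsDegree X d) : HomTriv W X (d - degCK π) := by
  have h1 := degCK_isDegree h
  refine ⟨Submodule.sub_mem _ hd.1 h1.1, fun c => ?_⟩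
  refine gr_induction (W.isInternal X) (p := fun c => W.act (d - degCK π) c = 0) ?_ ?_ c
  · intro l a ha
    rw [W.act_sub, LinearMap.sub_apply, hd.2 l a ha, h1.2 l a ha, sub_self]
  · intro a b ha hb
    rw [map_add, ha, hb, add_zero]

include h hL

/-- `π_b ∘ γ ∘ π_a = 0` for `a < b + m` -/
lemma low_step {d γ : C.CH (X.prod X)} (hd : W.IsDegree X d) {m : ℕ}
    (hγ : ∀ a b, a < b + m → C.comp (C.comp (π a) γ) (π b) = 0) (a b : ℕ) (hab : a < b + (m + 1)) :
    C.comp (C.comp (π a) ((m : ℚ) • γ + (C.comp γ d - C.comp d γ))) (π b) = 0 := by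
  set ν := d - degCK π with hν
  have hνt := homTriv_sub h hd
  rw [← hν] at hνt
  have hdν : d = degCK π + ν := by rw [hν]; abel
  have e1 : C.comp (C.comp (π a) (C.comp γ d)) (π b) = (b : ℚ) • C.comp (C.comp (π a) γ) (π b) := by
    have h1 : C.comp (C.comp (π a) (C.comp γ ν)) (π b) = 0 := by
      rw [← C.comp_assoc, h.comp_sum_comp (C.comp (π a) γ) ν, C.sum_comp]
      refine Finset.sum_eq_zero fun c _ => ?_
      rcases Nat.lt_or_ge a (c + m) with hc | hc
      · rw [hγ a c hc, C.zero_comp, C.zero_comp]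
      · have h2 := hL ν hνt.1 hνt.2 c b (by omega)
        rw [C.comp_assoc (C.comp (π a) γ) (π c) ν, C.comp_assoc, h2, C.comp_zero]
    rw [hdν, C.comp_add, C.comp_add, C.add_comp, h1, add_zero, ← C.comp_assoc (π a) γ,
      C.comp_assoc _ (degCK π), degCK_comp h, C.comp_smul]
  have e2 : C.comp (C.comp (π a) (C.comp d γ)) (π b) = (a : ℚ) • C.comp (C.comp (π a) γ) (π b) := by
    have h1 : C.comp (C.comp (π a) (C.comp ν γ)) (π b) = 0 := by
      rw [← C.comp_assoc, h.comp_sum_comp (C.comp (π a) ν) γ, C.sum_comp]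
      refine Finset.sum_eq_zero fun c _ => ?_
      rcases Nat.lt_or_ge c (b + m) with hc | hc
      · have h2 := hγ c b hc
        rw [C.comp_assoc (C.comp (π a) ν) (π c) γ, C.comp_assoc, h2, C.comp_zero]
      · rw [hL ν hνt.1 hνt.2 a c (by omega), C.zero_comp, C.zero_comp]
    rw [hdν, C.add_comp, C.comp_add, C.add_comp, h1, add_zero, ← C.comp_assoc (π a) (degCK π),
      comp_degCK h, C.smul_comp, C.smul_comp]
  rw [C.comp_add, comp_sub, C.comp_smul, C.add_comp, sub_comp, C.smul_comp, e1, e2]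
  rcases Nat.lt_or_ge a (b + m) with hc | hc
  · rw [hγ a b hc]; simp
  · have : (a : ℚ) = b + m := by
      have : a = b + m := by omega
      rw [this]; push_cast; ring
    rw [this]
    module

theorem lowers_of {d : C.CH (X.prod X)} (hd : W.IsDegree X d) : Lowers W X d := by
  have key : ∀ (m : ℕ), m ≤ 2 * X.dim → ∀ γ : C.CH (X.prod X),
      (∀ a b, a < b + (2 * X.dim - m + 1) → C.comp (C.comp (π a) γ) (π b) = 0) →
      falling (adOp C (2 * X.dim : ℚ) d) m γ = 0 := by
    intro m
    induction m with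
    | zero =>
      intro _ γ hγ
      rw [falling_zero]
      have h1 : ∀ a b, C.comp (C.comp (π a) γ) (π b) = 0 := by
        intro a b
        by_cases ha : 2 * X.dim < a
        · rw [h.eq_zero ha, C.zero_comp, C.zero_comp]
        · exact hγ a b (by omega)
      rw [← C.comp_diagC γ, ← h.sum, C.comp_sum]
      refine Finset.sum_eq_zero fun b _ => ?_
      rw [← C.diagC_comp (C.comp γ (π b)), ← h.sum, C.sum_comp]
      exact Finset.sum_eq_zero fun a _ => by rw [← C.comp_assoc]; exact h1 a b
    | succ m ih =>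
      intro hm γ hγ
      rw [falling_succ]
      apply ih (by omega)
      intro a b hab
      have h1 := low_step h hL hd (m := 2 * X.dim - m) (γ := γ) (fun a b hab => hγ a b (by omega))
        a b hab
      have h2 : adOp C (2 * X.dim : ℚ) d γ - (m : ℚ) • γ =
          ((2 * X.dim - m : ℕ) : ℚ) • γ + (C.comp γ d - C.comp d γ) := by
        rw [adOp_apply, Nat.cast_sub (by omega), sub_smul]
        push_cast
        abel
      rw [h2]
      exact h1
  intro γ hγ
  apply key _ le_rfl
  intro a b hab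
  exact hL γ hγ.1 hγ.2 a b (by omega)

theorem annihilates_aux {d : C.CH (X.prod X)} (hd : W.IsDegree X d) : ∀ (m : ℕ) (x : C.CH X),
    (∀ b, m ≤ b → C.act (π b) x = 0) → falling (C.act d) m x = 0 := by
  intro m
  induction m with
  | zero =>
    intro x hx
    rw [falling_zero, ← h.sum_act x]
    exact Finset.sum_eq_zero fun j _ => hx j (Nat.zero_le _)
  | succ m ih =>
    intro x hx
    rw [falling_succ]
    apply ih
    intro b hb
    have hνt := homTriv_sub h hd
    have e0 : C.act d x = C.act (degCK π) x + C.act (d - degCK π) x := by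
      rw [C.act_sub, LinearMap.sub_apply]; abel
    have e1 : C.act (π b) (C.act (degCK π) x) = (b : ℚ) • C.act (π b) x := by
      rw [← C.act_comp, degCK_comp h, C.act_smul, LinearMap.smul_apply]
    have e2 : C.act (π b) (C.act (d - degCK π) x) = 0 := by
      conv_lhs => rw [← h.sum_act x]
      rw [map_sum, map_sum]
      refine Finset.sum_eq_zero fun c _ => ?_
      rcases Nat.lt_or_ge b c with hc | hc
      · rw [hx c (by omega), map_zero, map_zero]
      · rw [← C.act_comp, ← C.act_comp, ← C.comp_assoc, hL _ hνt.1 hνt.2 c b hc, C.act_zero,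
          LinearMap.zero_apply]
    rw [map_sub, map_smul, e0, map_add, e1, e2, add_zero]
    rcases Nat.lt_or_ge m b with hc | hc
    · rw [hx b hc]; simp
    · have : b = m := by omega
      rw [this, sub_self]

theorem annihilates_of (hD : W.MurreD X) {d : C.CH (X.prod X)} (hd : W.IsDegree X d) (i : ℕ) :
    Annihilates W X d i := by
  intro x hx hcl
  apply annihilates_aux h hL hd
  intro b hb
  exact (h.firstIsKernel_iff.1 (hD π h i)) x hx hcl b hb

end Converse

/-! ### The bijection between decompositions and degree operators -/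

lemma degCK_lagCK {d : C.CH (X.prod X)} (hd : W.IsDegree X d)
    (h0 : aeval (CorrRing.of C X d) (pol (Finset.range (2 * X.dim + 1))) = 0) :
    degCK (lagCK d) = d := by
  have hCK := lagCK_isCK hd h0
  unfold degCK
  rw [Finset.sum_congr rfl fun j _ => (lagCK_comp h0 j).symm, ← C.sum_comp, hCK.sum, C.diagC_comp]

lemma aeval_degCK {π : ℕ → C.CH (X.prod X)} (h : W.IsCK X π) (p : ℚ[X]) :
    (CorrRing.of C X).symm (aeval (CorrRing.of C X (degCK π)) p) =
      ∑ j ∈ Finset.range (2 * X.dim + 1), p.eval (j : ℚ) • π j := by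
  set δ := CorrRing.of C X (degCK π) with hδ
  have h1 : ∀ j, aeval δ p * CorrRing.of C X (π j) = p.eval (j : ℚ) • CorrRing.of C X (π j) := by
    intro j
    have h2 : (Algebra.lmul ℚ (CorrRing C X) δ) (CorrRing.of C X (π j)) =
        (j : ℚ) • CorrRing.of C X (π j) := comp_degCK h j
    have h3 := aeval_eigen h2 p
    rw [aeval_algHom_apply] at h3
    exact h3
  have h4 : ∑ j ∈ Finset.range (2 * X.dim + 1), CorrRing.of C X (π j) = 1 := h.sum
  have h5 : aeval δ p = ∑ j ∈ Finset.range (2 * X.dim + 1),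
      p.eval (j : ℚ) • CorrRing.of C X (π j) := by
    rw [← mul_one (aeval δ p), ← h4, Finset.mul_sum]
    exact Finset.sum_congr rfl fun j _ => h1 j
  rw [h5]
  rfl

lemma lagCK_degCK {π : ℕ → C.CH (X.prod X)} (h : W.IsCK X π) : lagCK (degCK π) = π := by
  funext j
  unfold lagCK
  split_ifs with hj
  · rw [aeval_degCK h, Finset.sum_eq_single j]
    · unfold R903.lag
      rw [Lagrange.eval_basis_self (s := Finset.range (2 * X.dim + 1)) (v := fun j : ℕ => (j : ℚ))
        (fun a _ b _ hab => by have h : (a : ℚ) = b := hab; exact_mod_cast h)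
        (Finset.mem_range.2 hj), one_smul]
    · intro i hi hij
      unfold R903.lag
      rw [Lagrange.eval_basis_of_ne (s := Finset.range (2 * X.dim + 1))
        (v := fun j : ℕ => (j : ℚ)) (Ne.symm hij) hi, zero_smul]
    · intro h1; exact absurd (Finset.mem_range.2 hj) h1
  · exact (h.eq_zero (by omega)).symm

lemma givesCK {d : C.CH (X.prod X)} (hd : W.IsDegree X d)
    (h0 : aeval (CorrRing.of C X d) (pol (Finset.range (2 * X.dim + 1))) = 0) :
    GivesCK W X d := by
  refine ⟨lagCK d, ⟨lagCK_isCK hd h0, degCK_lagCK hd h0⟩, ?_⟩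
  rintro π ⟨hπ, rfl⟩
  exact (lagCK_degCK hπ).symm

/-! ### The square -/

lemma act_degHom (d : C.CH (X.prod X)) :
    (C.act (degHom C d d) : C.CH (X.prod X) → C.CH (X.prod X)) = adOp C (2 * X.dim : ℚ) d := by
  funext γ
  rw [degHom, C.act_add, C.act_sub, C.act_smul, LinearMap.add_apply, LinearMap.sub_apply,
    LinearMap.smul_apply, C.act_diagC, C.act_opR, C.act_opL, adOp_apply]
  abel

theorem lowers_of_annihilates {d : C.CH (X.prod X)}
    (h : Annihilates W (X.prod X) (degHom C d d) X.dim) : Lowers W X d := by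
  intro γ hγ
  have := h γ hγ.1 (cl_eq_zero_of_isZeroMap hγ.2)
  rwa [act_degHom] at this

/-! ### The theorems -/

theorem tfae (hP : C.Polarized) :
    List.TFAE [∀ X : 𝒱.Obj, MurreAD W X,
      ∀ X : 𝒱.Obj, ∃ d, W.IsDegree X d ∧ Lowers W X d,
      W.Kunneth ∧ ∀ (X : 𝒱.Obj) d, W.IsDegree X d → Lowers W X d,
      W.Kunneth ∧ ∀ (X : 𝒱.Obj) d, W.IsDegree X d → ∀ i, Annihilates W X d i] := by
  tfae_have 2 → 1 := by
    intro h X
    obtain ⟨d, hd, hL⟩ := h X
    obtain ⟨h1, h2⟩ := hL.exists hd
    exact ⟨⟨_, h1⟩, h2.murreD h1 hP⟩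
  have key : (∀ X : 𝒱.Obj, MurreAD W X) → ∀ X : 𝒱.Obj, ∃ π, W.IsCK X π ∧ W.LowersIndex π π := by
    intro h X
    have h1 := ((murreD_tfae (W := W) hP).out 0 3).1 (fun X => (h X).2)
    exact h1 X (h X).1
  tfae_have 1 → 3 := by
    intro h
    refine ⟨fun X j => ?_, fun X d hd => ?_⟩
    · obtain ⟨π, hπ⟩ := (h X).1
      exact ⟨π j, hπ.mem j, hπ.proj j⟩
    · obtain ⟨π, hπ, hL⟩ := key h X
      exact lowers_of hπ hL hd
  tfae_have 1 → 4 := by
    intro h
    refine ⟨fun X j => ?_, fun X d hd i => ?_⟩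
    · obtain ⟨π, hπ⟩ := (h X).1
      exact ⟨π j, hπ.mem j, hπ.proj j⟩
    · obtain ⟨π, hπ, hL⟩ := key h X
      exact annihilates_of hπ hL (h X).2 hd i
  tfae_have 3 → 2 := by
    rintro ⟨hK, h⟩ X
    obtain ⟨d, hd⟩ := hK.exists_degree X
    exact ⟨d, hd, h X d hd⟩
  tfae_have 4 → 2 := by
    rintro ⟨hK, h⟩ X
    obtain ⟨d, hd⟩ := hK.exists_degree X
    exact ⟨d, hd, lowers_of_annihilates (h _ _ (W.isDegree_degHom hd hd) _)⟩
  tfae_finish

end Pool.Agent.R368
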