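import Pool.Agent.R903.MurreDDefs

/-!
# Operators `[d, ·]`: definitions
-/

open CategoryTheory CategoryTheory.Limits AlgebraicGeometry
open Pool.Agent.H914 Pool.Agent.H914.VarClass Pool.Agent.H914.VarClass.Obj
open Pool.Agent.R903

universe u v w

namespace Pool.Agent.R368

/-- `T (T - 1) (T - 2) ⋯ (T - (m - 1)) x`, for a linear operator `T`. -/
def falling {V : Type v} [AddCommGroup V] [Module ℚ V] (T : V → V) : ℕ → V → V
  | 0, x => x
  | m + 1, x => falling T m (T x - (m : ℚ) • x)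

/-- `T (T - 1) ⋯ (T - (m - 1))` kills the kernel of `f` on `U`. -/
def KillsKernel {A : Type v} [CommRing A] [Algebra ℚ A] {H : Type w} [Ring H] (f : A →+* H)
    (U : Submodule ℚ A) (T : A → A) (m : ℕ) : Prop :=
  ∀ x ∈ U, f x = 0 → falling T m x = 0

variable {k : Type u} [Field k] {𝒱 : VarClass k} {C : ChowTheory.{u, v} 𝒱}

/-- The operator `γ ↦ m γ + [d, γ]`, with `[d, γ] = d ∘ γ - γ ∘ d`, on the correspondences from `X`
to `X`. -/
noncomputable def adOp (C : ChowTheory.{u, v} 𝒱) {X : 𝒱.Obj} (m : ℚ) (d γ : C.CH (X.prod X)) :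
    C.CH (X.prod X) :=
  m • γ + (C.comp γ d - C.comp d γ)

/-- The correspondence `∑_j j π_j`, the sum over `0 ≤ j ≤ 2 dim X`. -/
noncomputable def degCK {X : 𝒱.Obj} (π : ℕ → C.CH (X.prod X)) : C.CH (X.prod X) :=
  ∑ j ∈ Finset.range (2 * X.dim + 1), (j : ℚ) • π j

/-- `γ` is homologically trivial: a correspondence in `CH^(dim X)(X × X)` which acts as zero on the
cohomology of `X`. -/
def HomTriv (W : WeilTheory.{u, v, w} C) (X : 𝒱.Obj) (γ : C.CH (X.prod X)) : Prop :=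
  γ ∈ C.gr (X.prod X) X.dim ∧ IsZeroMap (W.act γ)

/-- The identity `([d, ·] + 1) ([d, ·] + 2) ⋯ ([d, ·] + 2n) γ = 0`, for all homologically trivial
`γ` in `CH^n(X × X)`, `n = dim X`. -/
def Lowers (W : WeilTheory.{u, v, w} C) (X : 𝒱.Obj) (d : C.CH (X.prod X)) : Prop :=
  ∀ γ, HomTriv W X γ → falling (adOp C (2 * X.dim : ℚ) d) (2 * X.dim) γ = 0

/-- The identity `d (d - 1) ⋯ (d - (2i - 1)) x = 0`, for all homologically trivial `x` in
`CH^i(X)`. -/
def Annihilates (W : WeilTheory.{u, v, w} C) (X : 𝒱.Obj) (d : C.CH (X.prod X)) (i : ℕ) : Prop :=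
  KillsKernel (W.cl X) (C.gr X i) (C.act d) (2 * i)

/-- `d` is `∑_j j π_j` for exactly one Chow–Künneth decomposition `π` of `X`. -/
def GivesCK (W : WeilTheory.{u, v, w} C) (X : 𝒱.Obj) (d : C.CH (X.prod X)) : Prop :=
  ∃! π : ℕ → C.CH (X.prod X), W.IsCK X π ∧ degCK π = d

/-- `X` has a Chow–Künneth decomposition, and Murre's conjecture (D) holds for `X`. -/
def MurreAD (W : WeilTheory.{u, v, w} C) (X : 𝒱.Obj) : Prop :=
  W.HasCK X ∧ W.MurreD X

end Pool.Agent.R368
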